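import Pool.Agent.NE.Stmts

/-!
# Squad NLE, row NZB (helper55): the basis vectors are not zero
-/

set_option autoImplicit false

open Finset Filter Topology

namespace Pool.Agent.NE.H55

open Pool.Agent.NE

theorem nzb (hANC : AncStmt) (hSPL : SplStmt) (hNNB : NnbStmt) (hTRF : TrfStmt) (hSPS : SpsStmt)
    (hCMP : CmpStmt) (hYSP : YspStmt) : NzbStmt := by
  intro X Z _ _ _ _ Ψ N p s σ θ L y C M Y hT hV hlim n
  obtain ⟨hus, -, hnn, -, hex, -, -⟩ := hNNB N hT.two
  obtain ⟨hσ, hθ, -⟩ := hTRF N p s σ θ hT
  rcases Nat.eq_zero_or_pos n with rfl | hn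
  · -- the first vector
    intro h0
    have h1 : Y 1 0 = 0 := by
      have h2 : bs σ Y 0 = Y 1 0 := by
        unfold bs
        rw [if_pos rfl]
      rw [← h2, h0]
    have hnn0 : nn N 0 = 1 := by
      unfold nn
      rw [range_zero, sum_empty, add_zero]
    have h3 := (hCMP X Z Ψ N p s σ θ L y C M Y hT hV hlim 0 (fun _ => 1)).1
    rw [hnn0, sum_range_one, h1, smul_zero, norm_zero, mul_zero] at h3
    have h4 : J N L 0 (fun _ => 1) = L 0 0 := by
      unfold J
      rw [hnn0, sum_range_one, one_smul]
    rw [h4] at h3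
    exact hV.root (norm_le_zero_iff.1 h3)
  · intro h0
    obtain ⟨t, m, hm1, hm2, hnt⟩ := hex n hn
    have hσn : σ n < n := hσ n hn
    have hN1 : nn N (t + 1) = nn N t + (N t - 1) := hnn t
    have hle : n + 1 ≤ nn N (t + 1) := by omega
    have hust : us t < nn N t := hus t
    obtain ⟨ha1, ha2, -, -⟩ := hANC σ (nn N (t + 1)) (fun i hi _ => hσ i hi)
    obtain ⟨hs1, -, -, -⟩ := hSPS N p s σ θ hT
    -- the coefficients
    obtain ⟨a, ha⟩ : ∃ a : ℕ → ℝ, a = fun i => (if i = σ n then 1 else 0) - (if i = n then 1 else 0) :=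
      ⟨_, rfl⟩
    obtain ⟨c, hc⟩ : ∃ c : ℕ → ℝ, c = sp N σ θ (n + 1) (t + 1) a := ⟨_, rfl⟩
    have hsn : σ n = ix (nn N t) (us t) (s t m) := by
      have h := hT.sg t m hm1 hm2
      rw [← hnt] at h
      exact h
    have hY : ∑ i ∈ range (n + 1), a i • Y (n + 1) i = 0 := by
      have h1 : bs σ Y n = Y (n + 1) (σ n) - Y (n + 1) n := by
        unfold bs
        rw [if_neg (by omega)]
      rw [h1] at h0
      rw [ha]
      simp only [sub_smul, sum_sub_distrib, ite_smul, one_smul, zero_smul, sum_ite_eq',
        mem_range]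
      rw [if_pos (by omega), if_pos (by omega), h0]
    rw [hYSP X Z Ψ N p s σ θ L Y hT hlim (n + 1) (t + 1) a (by omega) hle, ← hc] at hY
    have hJ : J N L (t + 1) c = 0 := by
      have h1 := (hCMP X Z Ψ N p s σ θ L y C M Y hT hV hlim (t + 1) c).1
      rw [hY, norm_zero, mul_zero] at h1
      exact norm_le_zero_iff.1 h1
    -- the coefficients outside of the block vanish
    have hc0 : ∀ i ∈ (range (nn N t)).erase (us t), c i = 0 := by
      intro i hi
      obtain ⟨hi1, hi2⟩ := mem_erase.1 hi
      rw [mem_range] at hi2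
      have h1 : anc σ (n + 1) i = i := ha1 (n + 1) i (by omega)
      have h2 : a i = 0 := by
        rw [ha]
        have h3 : i ≠ σ n := by
          rw [hsn]
          unfold ix
          split_ifs
          · exact hi1
          · omega
        have h4 : i ≠ n := by omega
        simp only [if_neg h3, if_neg h4, sub_zero]
      rw [hc]
      unfold sp
      rw [h1, h2, mul_zero]
    have hJ2 : ∑ j ∈ range (N t), c (ix (nn N t) (us t) j) •
        L (t + 1) (ix (nn N t) (us t) j) = 0 := by
      unfold J at hJ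
      have h1 := hSPL Z (fun i => c i • L (t + 1) i) (nn N t) (us t) (N t) hust
        (by have := hT.two t; omega)
      rw [← hN1, hJ] at h1
      have h2 : ∑ i ∈ (range (nn N t)).erase (us t), c i • L (t + 1) i = 0 :=
        sum_eq_zero fun i hi => by rw [hc0 i hi, zero_smul]
      rw [h2, zero_add] at h1
      exact h1.symm
    have hsum : ∑ j ∈ range (N t), c (ix (nn N t) (us t) j) = 0 := by
      have h1 := hSPL ℝ c (nn N t) (us t) (N t) hust (by have := hT.two t; omega)
      rw [← hN1, sum_eq_zero hc0, zero_add] at h1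
      rw [← h1, ← sum_fiberwise_of_maps_to (s := range (nn N (t + 1))) (t := range (n + 1))
        (g := fun j => anc σ (n + 1) j) (fun j hj => mem_range.2
          (ha2 (n + 1) j (by omega) (mem_range.1 hj)).1)]
      have h2 : ∀ i ∈ range (n + 1), (∑ j ∈ range (nn N (t + 1)) with anc σ (n + 1) j = i, c j) =
          a i := by
        intro i hi
        have h3 := hs1 (n + 1) (t + 1) a i (by omega) hle (mem_range.1 hi)
        rw [← hc] at h3
        exact h3
      rw [sum_congr rfl h2, ha]
      simp only [sum_sub_distrib, sum_ite_eq', mem_range]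
      rw [if_pos (by omega), if_pos (by omega), sub_self]
    have hz := (hV.step t).nz (fun j => c (ix (nn N t) (us t) j)) hsum hJ2 m hm2
    have hix : ix (nn N t) (us t) m = n := by
      unfold ix
      rw [if_neg (by omega)]
      omega
    have hcn : c n = 0 := by
      have h1 : c (ix (nn N t) (us t) m) = 0 := hz
      rw [hix] at h1
      exact h1
    have hanc : anc σ (n + 1) n = n := ha1 (n + 1) n (by omega)
    have hθn : 0 < θ (t + 1) n := hθ (t + 1) n (by omega)
    have hms : 0 < ms N σ θ (n + 1) (t + 1) n := by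
      unfold ms cl
      refine sum_pos (fun j hj => hθ (t + 1) j (mem_range.1 (mem_filter.1 hj).1)) ⟨n, ?_⟩
      exact mem_filter.2 ⟨mem_range.2 (by omega), hanc⟩
    have han : a n = -1 := by
      rw [ha]
      simp only [if_neg (show n ≠ σ n by omega), if_true]
      norm_num
    rw [hc] at hcn
    unfold sp at hcn
    rw [hanc, han] at hcn
    have h5 : 0 < θ (t + 1) n / ms N σ θ (n + 1) (t + 1) n := div_pos hθn hms
    linarith

end Pool.Agent.NE.H55
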